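import Pool.Agent.Q132.RS.Step

/-! The two starting sequences, for `m = 0` and `m = 1`. -/

namespace Pool.Agent.Q132.RS

/-- the group `A₄ × C₂ ^ m` -/
abbrev AC (m : ℕ) := alternatingGroup (Fin 4) × (Fin m → Multiplicative (ZMod 2))

/-- an even permutation, by its values -/
def e0123 : alternatingGroup (Fin 4) :=
  ⟨⟨![0, 1, 2, 3], ![0, 1, 2, 3], by decide, by decide⟩,
    by rw [Equiv.Perm.mem_alternatingGroup]; decide⟩

/-- an even permutation, by its values -/
def e0231 : alternatingGroup (Fin 4) :=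
  ⟨⟨![0, 2, 3, 1], ![0, 3, 1, 2], by decide, by decide⟩,
    by rw [Equiv.Perm.mem_alternatingGroup]; decide⟩

/-- an even permutation, by its values -/
def e0312 : alternatingGroup (Fin 4) :=
  ⟨⟨![0, 3, 1, 2], ![0, 2, 3, 1], by decide, by decide⟩,
    by rw [Equiv.Perm.mem_alternatingGroup]; decide⟩

/-- an even permutation, by its values -/
def e1032 : alternatingGroup (Fin 4) :=
  ⟨⟨![1, 0, 3, 2], ![1, 0, 3, 2], by decide, by decide⟩,
    by rw [Equiv.Perm.mem_alternatingGroup]; decide⟩

/-- an even permutation, by its values -/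
def e1203 : alternatingGroup (Fin 4) :=
  ⟨⟨![1, 2, 0, 3], ![2, 0, 1, 3], by decide, by decide⟩,
    by rw [Equiv.Perm.mem_alternatingGroup]; decide⟩

/-- an even permutation, by its values -/
def e1320 : alternatingGroup (Fin 4) :=
  ⟨⟨![1, 3, 2, 0], ![3, 0, 2, 1], by decide, by decide⟩,
    by rw [Equiv.Perm.mem_alternatingGroup]; decide⟩

/-- an even permutation, by its values -/
def e2013 : alternatingGroup (Fin 4) :=
  ⟨⟨![2, 0, 1, 3], ![1, 2, 0, 3], by decide, by decide⟩,
    by rw [Equiv.Perm.mem_alternatingGroup]; decide⟩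

/-- an even permutation, by its values -/
def e2130 : alternatingGroup (Fin 4) :=
  ⟨⟨![2, 1, 3, 0], ![3, 1, 0, 2], by decide, by decide⟩,
    by rw [Equiv.Perm.mem_alternatingGroup]; decide⟩

/-- an even permutation, by its values -/
def e2301 : alternatingGroup (Fin 4) :=
  ⟨⟨![2, 3, 0, 1], ![2, 3, 0, 1], by decide, by decide⟩,
    by rw [Equiv.Perm.mem_alternatingGroup]; decide⟩

/-- an even permutation, by its values -/
def e3021 : alternatingGroup (Fin 4) :=
  ⟨⟨![3, 0, 2, 1], ![1, 3, 2, 0], by decide, by decide⟩,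
    by rw [Equiv.Perm.mem_alternatingGroup]; decide⟩

/-- an even permutation, by its values -/
def e3102 : alternatingGroup (Fin 4) :=
  ⟨⟨![3, 1, 0, 2], ![2, 1, 3, 0], by decide, by decide⟩,
    by rw [Equiv.Perm.mem_alternatingGroup]; decide⟩

/-- an even permutation, by its values -/
def e3210 : alternatingGroup (Fin 4) :=
  ⟨⟨![3, 2, 1, 0], ![3, 2, 1, 0], by decide, by decide⟩,
    by rw [Equiv.Perm.mem_alternatingGroup]; decide⟩

/-- the nontrivial element of `C₂ ^ 1` -/
def t : Fin 1 → Multiplicative (ZMod 2) := fun _ => Multiplicative.ofAdd 1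

/-- the list for `m = 0` -/
def list0 : List (AC 0) :=
  [ (e0123, 1), (e2301, 1), (e1032, 1), (e2130, 1), (e1320, 1), (e3102, 1), (e3021, 1),
    (e2013, 1), (e0312, 1), (e0231, 1), (e1203, 1) ]

/-- the list for `m = 1` -/
def list1 : List (AC 1) :=
  [ (e0123, 1), (e1032, t), (e1032, 1), (e2013, 1), (e0312, 1), (e2301, t), (e0231, 1),
    (e2301, 1), (e3102, t), (e1320, t), (e0231, t), (e3210, t), (e3021, t), (e1203, 1),
    (e3102, 1), (e3021, 1), (e2130, t), (e1320, 1), (e2130, 1), (e2013, t), (e3210, 1),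
    (e1203, t), (e0312, t) ]

theorem star0 : Star (AC 0) 11 (fun i => list0.getD (i % 11) 1) (e3210, 1) where
  card := by
    rw [Nat.card_eq_fintype_card]
    decide +kernel
  pos := by norm_num
  per := fun i => by simp
  inj := by
    have key : ∀ i j : Fin 11, list0.getD (i.val % 11) 1 = list0.getD (j.val % 11) 1 → i = j := by
      decide +kernel
    intro i hi j hj h
    exact congrArg Fin.val (key ⟨i, hi⟩ ⟨j, hj⟩ h)
  miss := by decide +kernel
  qinj := by
    have key : ∀ i j : Fin 11,
        (list0.getD (i.val % 11) 1)⁻¹ * list0.getD ((i.val + 1) % 11) 1 =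
          (list0.getD (j.val % 11) 1)⁻¹ * list0.getD ((j.val + 1) % 11) 1 → i = j := by
      decide +kernel
    intro i hi j hj h
    exact congrArg Fin.val (key ⟨i, hi⟩ ⟨j, hj⟩ h)
  comm := by decide +kernel
  hc := by decide +kernel

theorem star1 : Star (AC 1) 23 (fun i => list1.getD (i % 23) 1) (e0123, t) where
  card := by
    rw [Nat.card_eq_fintype_card]
    decide +kernel
  pos := by norm_num
  per := fun i => by simp
  inj := by
    have key : ∀ i j : Fin 23, list1.getD (i.val % 23) 1 = list1.getD (j.val % 23) 1 → i = j := by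
      decide +kernel
    intro i hi j hj h
    exact congrArg Fin.val (key ⟨i, hi⟩ ⟨j, hj⟩ h)
  miss := by decide +kernel
  qinj := by
    have key : ∀ i j : Fin 23,
        (list1.getD (i.val % 23) 1)⁻¹ * list1.getD ((i.val + 1) % 23) 1 =
          (list1.getD (j.val % 23) 1)⁻¹ * list1.getD ((j.val + 1) % 23) 1 → i = j := by
      decide +kernel
    intro i hi j hj h
    exact congrArg Fin.val (key ⟨i, hi⟩ ⟨j, hj⟩ h)
  comm := by decide +kernel
  hc := by decide +kernel

end Pool.Agent.Q132.RS
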