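import Mathlib

/-! R*-sequencings of finite groups and the step from `G` to `G × C₂ × C₂`. -/

namespace Pool.Agent.Q132.RS

/-- `a 0 * a 1 * ... * a i` -/
def partialProd {G : Type*} [Group G] (a : ℕ → G) (i : ℕ) : G :=
  ((List.range (i + 1)).map a).prod

/-- `G` is R-sequenceable: the elements of `G` can be listed as `a 0 = 1, a 1, …, a (n - 1)`, each
exactly once (`n = |G|`), so that the partial products `b i = a 0 * ⋯ * a i`, `i ≤ n - 2`, are
pairwise distinct and `b (n - 1) = 1`. -/
def RSequenceable (G : Type*) [Group G] : Prop :=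
  ∃ a : ℕ → G, a 0 = 1 ∧ Set.BijOn a (Set.Iio (Nat.card G)) Set.univ ∧
    Set.InjOn (partialProd a) (Set.Iio (Nat.card G - 1)) ∧ partialProd a (Nat.card G - 1) = 1

/-- A cyclic sequence `b` of `L = |G| - 1` distinct elements of `G` without `c`, with distinct
quotients, such that the first two quotients `α`, `β` commute and `c = b 0 * β`. -/
structure Star (G : Type*) [Group G] (L : ℕ) (b : ℕ → G) (c : G) : Prop where
  card : Nat.card G = L + 1
  pos : 3 ≤ L
  per : ∀ i, b (i + L) = b i
  inj : ∀ i, i < L → ∀ j, j < L → b i = b j → i = j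
  miss : ∀ i, i < L → b i ≠ c
  qinj : ∀ i, i < L → ∀ j, j < L → (b i)⁻¹ * b (i + 1) = (b j)⁻¹ * b (j + 1) → i = j
  comm : (b 0)⁻¹ * b 1 * ((b 1)⁻¹ * b 2) = (b 1)⁻¹ * b 2 * ((b 0)⁻¹ * b 1)
  hc : c = b 0 * ((b 1)⁻¹ * b 2)

namespace Star

variable {G : Type*} [Group G] {L : ℕ} {b : ℕ → G} {c : G}

lemma bmod (h : Star G L b c) (i : ℕ) : b i = b (i % L) := by
  have key : ∀ k j, b (j + L * k) = b j := by
    intro k
    induction k with
    | zero => intro j; simp
    | succ k ih =>
      intro j
      rw [Nat.mul_succ, ← Nat.add_assoc, h.per, ih]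
  conv_lhs => rw [← Nat.mod_add_div i L]
  exact key _ _

lemma binj (h : Star G L b c) {i j : ℕ} (e : b i = b j) : i % L = j % L := by
  have hL : 0 < L := by have := h.pos; omega
  rw [h.bmod i, h.bmod j] at e
  exact h.inj _ (Nat.mod_lt _ hL) _ (Nat.mod_lt _ hL) e

lemma miss' (h : Star G L b c) (i : ℕ) : b i ≠ c := by
  have hL : 0 < L := by have := h.pos; omega
  rw [h.bmod i]
  exact h.miss _ (Nat.mod_lt _ hL)

/-- the quotients -/
def q (b : ℕ → G) (i : ℕ) : G := (b i)⁻¹ * b (i + 1)

lemma qmod (h : Star G L b c) (i : ℕ) : q b i = q b (i % L) := by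
  unfold q
  rw [h.bmod i, h.bmod (i + 1), h.bmod (i % L + 1)]
  simp [Nat.add_mod]

lemma qinj' (h : Star G L b c) {i j : ℕ} (e : q b i = q b j) : i % L = j % L := by
  have hL : 0 < L := by have := h.pos; omega
  rw [h.qmod i, h.qmod j] at e
  exact h.qinj _ (Nat.mod_lt _ hL) _ (Nat.mod_lt _ hL) e

lemma q_ne (h : Star G L b c) (i : ℕ) : q b i ≠ 1 := by
  intro e
  have hL := h.pos
  unfold q at e
  have e2 : b i = b (i + 1) := by
    rw [inv_mul_eq_one] at e
    exact e
  have e3 := h.binj e2
  have h1 := Nat.mod_lt i (show 0 < L by omega)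
  have h2 : (i + 1) % L = (i % L + 1) % L := by rw [Nat.add_mod]; simp [Nat.add_mod]
  rw [h2] at e3
  rcases Nat.lt_or_ge (i % L + 1) L with h3 | h3
  · rw [Nat.mod_eq_of_lt h3] at e3
    omega
  · have h4 : i % L + 1 = L := by omega
    rw [h4, Nat.mod_self] at e3
    omega

lemma map {G' : Type*} [Group G'] (h : Star G L b c) (e : G ≃* G') :
    Star G' L (fun i => e (b i)) (e c) where
  card := by rw [← h.card]; exact (Nat.card_congr e.toEquiv).symm
  pos := h.pos
  per := fun i => by rw [h.per]
  inj := fun i hi j hj hh => h.inj i hi j hj (e.injective hh)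
  miss := fun i hi hh => h.miss i hi (e.injective hh)
  qinj := fun i hi j hj hh => by
    apply h.qinj i hi j hj
    apply e.injective
    simpa using hh
  comm := by
    have := congrArg e h.comm
    simpa using this
  hc := by
    have := congrArg e h.hc
    simpa using this

/-- an R*-sequencing gives an R-sequencing -/
theorem rSequenceable (h : Star G L b c) : RSequenceable G := by
  classical
  have hL := h.pos
  have hn1 : Nat.card G - 1 = L := by rw [h.card]; omega
  set a : ℕ → G := fun i => if i = 0 then 1 else q b (i - 1) with ha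
  have ha0 : a 0 = 1 := by simp [ha]
  have has : ∀ i, a (i + 1) = q b i := by intro i; simp [ha]
  have hpp : ∀ i, partialProd a i = (b 0)⁻¹ * b i := by
    intro i
    induction i with
    | zero => simp [partialProd, ha0]
    | succ i ih =>
      have e1 : partialProd a (i + 1) = partialProd a i * a (i + 1) := by
        unfold partialProd
        rw [List.range_succ, List.map_append, List.prod_append]
        simp
      rw [e1, ih, has]
      unfold q
      group
  have hainj : Set.InjOn a (Set.Iio (Nat.card G)) := by
    intro i hi j hj hij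
    rw [Set.mem_Iio, h.card] at hi hj
    rcases i with _ | i
    · rcases j with _ | j
      · rfl
      · rw [ha0, has] at hij
        exact absurd hij.symm (h.q_ne j)
    · rcases j with _ | j
      · rw [ha0, has] at hij
        exact absurd hij (h.q_ne i)
      · rw [has, has] at hij
        have := h.qinj i (by omega) j (by omega) hij
        omega
  refine ⟨a, ha0, ⟨fun _ _ => Set.mem_univ _, hainj, ?_⟩, ?_, ?_⟩
  · have hfin : Finite G := Nat.finite_of_card_ne_zero (by rw [h.card]; omega)
    have : Fintype G := Fintype.ofFinite G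
    have h1 : ((Finset.range (Nat.card G)).image a) = Finset.univ := by
      apply Finset.eq_univ_of_card
      rw [Finset.card_image_of_injOn, Finset.card_range, Nat.card_eq_fintype_card]
      intro i hi j hj hij
      exact hainj (by simpa using hi) (by simpa using hj) hij
    intro g _
    have h2 : g ∈ ((Finset.range (Nat.card G)).image a) := by rw [h1]; exact Finset.mem_univ _
    rw [Finset.mem_image] at h2
    obtain ⟨i, hi, rfl⟩ := h2
    exact ⟨i, by simpa using hi, rfl⟩
  · rw [hn1]
    intro i hi j hj hij
    rw [hpp, hpp] at hij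
    exact h.inj i hi j hj (mul_left_cancel hij)
  · rw [hn1, hpp]
    have := h.per 0
    rw [Nat.zero_add] at this
    rw [this]
    simp

end Star

end Pool.Agent.Q132.RS
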