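import Pool.Agent.Q132.RS.Star

/-! The step from `G` to `G × C₂ × C₂` for R*-sequencings of length `L ≡ 2 (mod 3)`. -/

namespace Pool.Agent.Q132.RS

/-- Klein's four-group -/
abbrev K := Multiplicative (ZMod 2) × Multiplicative (ZMod 2)

/-- its three elements of order two -/
def w3 : Fin 3 → K :=
  ![(Multiplicative.ofAdd 1, 1), (1, Multiplicative.ofAdd 1),
    (Multiplicative.ofAdd 1, Multiplicative.ofAdd 1)]

/-- the same, indexed by the natural numbers -/
def w (i : ℕ) : K := w3 ⟨i % 3, Nat.mod_lt _ (by norm_num)⟩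

lemma w_inj {i j : ℕ} (h : w i = w j) : i % 3 = j % 3 := by
  have key : ∀ x y : Fin 3, w3 x = w3 y → x = y := by decide
  have := key _ _ h
  simpa using congrArg Fin.val this

lemma w_ne (i : ℕ) : w i ≠ 1 := by
  have key : ∀ x : Fin 3, w3 x ≠ 1 := by decide
  exact key _

lemma w_mod {i j : ℕ} (h : i % 3 = j % 3) : w i = w j := by
  unfold w
  congr 1
  exact Fin.ext h

lemma w_q (i : ℕ) : (w i)⁻¹ * w (i + 1) = w (i + 2) := by
  have key : ∀ x : Fin 3, (w3 x)⁻¹ * w3 (x + 1) = w3 (x + 2) := by decide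
  have h1 := key ⟨i % 3, Nat.mod_lt _ (by norm_num)⟩
  have e1 : w (i + 1) = w3 (⟨i % 3, Nat.mod_lt _ (by norm_num)⟩ + 1) := by
    unfold w
    congr 1
    apply Fin.ext
    simp [Fin.val_add]
  have e2 : w (i + 2) = w3 (⟨i % 3, Nat.mod_lt _ (by norm_num)⟩ + 2) := by
    unfold w
    congr 1
    apply Fin.ext
    simp [Fin.val_add]
  rw [e1, e2]
  exact h1

lemma w_sq (i : ℕ) : w i * w i = 1 := by
  have key : ∀ x : Fin 3, w3 x * w3 x = 1 := by decide
  exact key _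

section
variable {G : Type*} [Group G]

/-- the new cyclic sequence, of period `4 L + 3` -/
def Bs (L : ℕ) (b : ℕ → G) (c : G) (r : ℕ) : G × K :=
  if r % (4 * L + 3) < 3 then (c, w (r % (4 * L + 3)))
  else if r % (4 * L + 3) < 3 * L + 3 then
    (b (r % (4 * L + 3) - 1), w (r % (4 * L + 3) - 1))
  else (b (r % (4 * L + 3) - 3 * L - 2), 1)

variable {L : ℕ} {b : ℕ → G} {c : G}

lemma B_a {r : ℕ} (hr : r < 3) : Bs L b c r = (c, w r) := by
  have : r % (4 * L + 3) = r := Nat.mod_eq_of_lt (by omega)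
  simp [Bs, this, hr]

lemma B_b {r : ℕ} (h1 : 3 ≤ r) (h2 : r < 3 * L + 3) :
    Bs L b c r = (b (r - 1), w (r - 1)) := by
  have : r % (4 * L + 3) = r := Nat.mod_eq_of_lt (by omega)
  simp [Bs, this, h2, show ¬ r < 3 by omega]

lemma B_c {r : ℕ} (h1 : 3 * L + 3 ≤ r) (h2 : r < 4 * L + 3) :
    Bs L b c r = (b (r - 3 * L - 2), 1) := by
  have : r % (4 * L + 3) = r := Nat.mod_eq_of_lt (by omega)
  simp [Bs, this, show ¬ r < 3 by omega, show ¬ r < 3 * L + 3 by omega]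

lemma B_per (r : ℕ) : Bs L b c (r + (4 * L + 3)) = Bs L b c r := by
  unfold Bs
  rw [Nat.add_mod_right]

namespace Star

lemma crt (hL : L % 3 = 2) {i j : ℕ} (hi : 2 ≤ i) (hi' : i ≤ 3 * L + 1) (hj : 2 ≤ j)
    (hj' : j ≤ 3 * L + 1) (h1 : i % L = j % L) (h2 : i % 3 = j % 3) : i = j := by
  have hc : Nat.Coprime 3 L := by
    rw [Nat.Prime.coprime_iff_not_dvd Nat.prime_three]
    omega
  have h3 : i ≡ j [MOD 3 * L] := (Nat.modEq_and_modEq_iff_modEq_mul hc).1 ⟨h2, h1⟩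
  rcases Nat.le_total i j with h | h
  · have h4 := (Nat.modEq_iff_dvd' h).1 h3
    have h5 := Nat.eq_zero_of_dvd_of_lt h4 (by omega)
    omega
  · have h4 := (Nat.modEq_iff_dvd' h).1 h3.symm
    have h5 := Nat.eq_zero_of_dvd_of_lt h4 (by omega)
    omega

/-- the quotients of the new sequence -/
lemma desc (h : Star G L b c) (r : ℕ) (hr : r < 4 * L + 3) :
    (r = 0 ∧ (Bs L b c r)⁻¹ * Bs L b c (r + 1) = (1, w 2)) ∨
    (r = 1 ∧ (Bs L b c r)⁻¹ * Bs L b c (r + 1) = (1, w 0)) ∨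
    (r = 3 * L + 2 ∧ (Bs L b c r)⁻¹ * Bs L b c (r + 1) = (1, w 1)) ∨
    (∃ j, j < L ∧ (Bs L b c r)⁻¹ * Bs L b c (r + 1) = (q b j, 1) ∧
      ((j = 0 ∧ r = 2) ∨ (1 ≤ j ∧ r = j + 3 * L + 2))) ∨
    (∃ i, 2 ≤ i ∧ i ≤ 3 * L + 1 ∧ (Bs L b c r)⁻¹ * Bs L b c (r + 1) = (q b i, w (i + 2)) ∧
      ((i ≤ 3 * L ∧ r = i + 1) ∨ (i = 3 * L + 1 ∧ r = 4 * L + 2))) := by
  have hL := h.pos
  rcases Nat.lt_or_ge r 3 with h1 | h1
  · interval_cases r
    · left
      refine ⟨rfl, ?_⟩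
      rw [B_a (by norm_num), B_a (by norm_num)]
      ext1
      · simp
      · exact w_q 0
    · right; left
      refine ⟨rfl, ?_⟩
      rw [B_a (by norm_num), B_a (by norm_num)]
      ext1
      · simp
      · exact (w_q 1).trans (w_mod (by norm_num))
    · right; right; right; left
      refine ⟨0, by omega, ?_, Or.inl ⟨rfl, rfl⟩⟩
      rw [B_a (by norm_num), B_b (by norm_num) (by omega)]
      ext1
      · show c⁻¹ * b (3 - 1) = q b 0
        unfold q
        have hc := h.hc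
        have hm := h.comm
        rw [hc, mul_inv_rev]
        have e : (b 0)⁻¹ * b 2 = (b 0)⁻¹ * b 1 * ((b 1)⁻¹ * b 2) := by group
        have e3 : ((b 1)⁻¹ * b 2)⁻¹ * (b 0)⁻¹ * b (3 - 1)
            = ((b 1)⁻¹ * b 2)⁻¹ * ((b 0)⁻¹ * b 2) := by
          show ((b 1)⁻¹ * b 2)⁻¹ * (b 0)⁻¹ * b 2 = _
          group
        rw [e3, e, hm]
        group
      · simp
  rcases Nat.lt_or_ge r (3 * L + 2) with h2 | h2
  · right; right; right; right
    refine ⟨r - 1, by omega, by omega, ?_, Or.inl ⟨by omega, by omega⟩⟩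
    rw [B_b h1 (by omega), B_b (by omega) (by omega)]
    obtain ⟨s, rfl⟩ : ∃ s, r = s + 1 := ⟨r - 1, by omega⟩
    simp only [Nat.add_sub_cancel]
    ext1
    · rfl
    · exact w_q s
  rcases Nat.lt_or_ge r (3 * L + 3) with h3 | h3
  · have hr' : r = 3 * L + 2 := by omega
    subst hr'
    right; right; left
    refine ⟨rfl, ?_⟩
    rw [B_b h1 (by omega), B_c (by omega) (by omega)]
    have e1 : b (3 * L + 2 - 1) = b 1 := by
      rw [show 3 * L + 2 - 1 = 1 + L + L + L by omega, h.per, h.per, h.per]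
    have e2 : 3 * L + 2 + 1 - 3 * L - 2 = 1 := by omega
    have e3 : w (3 * L + 2 - 1) = w 1 := w_mod (by omega)
    rw [e1, e2, e3]
    ext1
    · simp
    · show (w 1)⁻¹ * 1 = w 1
      rw [mul_one, inv_eq_iff_mul_eq_one]
      exact w_sq 1
  rcases Nat.lt_or_ge r (4 * L + 2) with h4 | h4
  · right; right; right; left
    refine ⟨r - 3 * L - 2, by omega, ?_, Or.inr ⟨by omega, by omega⟩⟩
    rw [B_c h3 (by omega), B_c (by omega) (by omega)]
    rw [show r + 1 - 3 * L - 2 = r - 3 * L - 2 + 1 by omega]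
    ext1
    · rfl
    · simp
  · have hr' : r = 4 * L + 2 := by omega
    subst hr'
    right; right; right; right
    refine ⟨3 * L + 1, by omega, le_refl _, ?_, Or.inr ⟨rfl, rfl⟩⟩
    rw [B_c h3 (by omega), show 4 * L + 2 + 1 = 0 + (4 * L + 3) by omega, B_per,
      B_a (by norm_num)]
    rw [show 4 * L + 2 - 3 * L - 2 = 0 + L by omega, h.per]
    have e1 : b (3 * L + 1) = b 1 := by
      rw [show 3 * L + 1 = 1 + L + L + L by omega, h.per, h.per, h.per]
    have e2 : b (3 * L + 1 + 1) = b 2 := by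
      rw [show 3 * L + 1 + 1 = 2 + L + L + L by omega, h.per, h.per, h.per]
    unfold q
    rw [e1, e2]
    ext1
    · show (b 0)⁻¹ * c = (b 1)⁻¹ * b 2
      rw [h.hc]
      group
    · show (1 : K)⁻¹ * w 0 = w (3 * L + 1 + 2)
      rw [inv_one, one_mul]
      exact w_mod (by omega)

/-- the step -/
theorem step (h : Star G L b c) (hL3 : L % 3 = 2) :
    Star (G × K) (4 * L + 3) (Bs L b c) (c, 1) := by
  have hL := h.pos
  refine ⟨?_, by omega, B_per, ?_, ?_, ?_, ?_, ?_⟩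
  · rw [Nat.card_prod, h.card]
    have : Nat.card K = 4 := by
      rw [Nat.card_eq_fintype_card]
      rfl
    rw [this]
    ring
  · have dB : ∀ r, r < 4 * L + 3 → (r < 3 ∧ Bs L b c r = (c, w r)) ∨
        (∃ i, 2 ≤ i ∧ i ≤ 3 * L + 1 ∧ r = i + 1 ∧ Bs L b c r = (b i, w i)) ∨
        (∃ i, 1 ≤ i ∧ i ≤ L ∧ r = i + 3 * L + 2 ∧ Bs L b c r = (b i, 1)) := by
      intro r hr
      rcases Nat.lt_or_ge r 3 with h1 | h1
      · exact Or.inl ⟨h1, B_a h1⟩
      rcases Nat.lt_or_ge r (3 * L + 3) with h2 | h2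
      · exact Or.inr (Or.inl ⟨r - 1, by omega, by omega, by omega, B_b h1 h2⟩)
      · exact Or.inr (Or.inr ⟨r - 3 * L - 2, by omega, by omega, by omega, B_c h2 hr⟩)
    intro r hr s hs hrs
    rcases dB r hr with ⟨a1, a2⟩ | ⟨i, a1, a2, a3, a4⟩ | ⟨i, a1, a2, a3, a4⟩
    · rcases dB s hs with ⟨c1, c2⟩ | ⟨j, c1, c2, c3, c4⟩ | ⟨j, c1, c2, c3, c4⟩
      · rw [a2, c2, Prod.mk.injEq] at hrs
        have := w_inj hrs.2
        omega
      · rw [a2, c4, Prod.mk.injEq] at hrs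
        exact absurd hrs.1.symm (h.miss' j)
      · rw [a2, c4, Prod.mk.injEq] at hrs
        exact absurd hrs.2 (w_ne r)
    · rcases dB s hs with ⟨c1, c2⟩ | ⟨j, c1, c2, c3, c4⟩ | ⟨j, c1, c2, c3, c4⟩
      · rw [a4, c2, Prod.mk.injEq] at hrs
        exact absurd hrs.1 (h.miss' i)
      · rw [a4, c4, Prod.mk.injEq] at hrs
        have := crt hL3 a1 a2 c1 c2 (h.binj hrs.1) (w_inj hrs.2)
        omega
      · rw [a4, c4, Prod.mk.injEq] at hrs
        exact absurd hrs.2 (w_ne i)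
    · rcases dB s hs with ⟨c1, c2⟩ | ⟨j, c1, c2, c3, c4⟩ | ⟨j, c1, c2, c3, c4⟩
      · rw [a4, c2, Prod.mk.injEq] at hrs
        exact absurd hrs.2.symm (w_ne s)
      · rw [a4, c4, Prod.mk.injEq] at hrs
        exact absurd hrs.2.symm (w_ne j)
      · rw [a4, c4, Prod.mk.injEq] at hrs
        have e := h.binj hrs.1
        have e1 : i = j := by
          rcases Nat.lt_or_ge i L with hi | hi
          · rw [Nat.mod_eq_of_lt hi] at e
            rcases Nat.lt_or_ge j L with hj | hj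
            · rw [Nat.mod_eq_of_lt hj] at e
              exact e
            · have : j = L := by omega
              rw [this, Nat.mod_self] at e
              omega
          · have hiL : i = L := by omega
            rw [hiL, Nat.mod_self] at e
            rcases Nat.lt_or_ge j L with hj | hj
            · rw [Nat.mod_eq_of_lt hj] at e
              omega
            · omega
        omega
  · intro r hr hh
    rcases Nat.lt_or_ge r 3 with h1 | h1
    · rw [B_a h1, Prod.mk.injEq] at hh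
      exact w_ne r hh.2
    rcases Nat.lt_or_ge r (3 * L + 3) with h2 | h2
    · rw [B_b h1 h2, Prod.mk.injEq] at hh
      exact h.miss' _ hh.1
    · rw [B_c h2 hr, Prod.mk.injEq] at hh
      exact h.miss' _ hh.1
  · intro r hr s hs hrs
    rcases h.desc r hr with ⟨a1, a2⟩ | ⟨a1, a2⟩ | ⟨a1, a2⟩ | ⟨i, a1, a2, a3⟩ | ⟨i, a0, a1, a2, a3⟩
    · rcases h.desc s hs with ⟨c1, c2⟩ | ⟨c1, c2⟩ | ⟨c1, c2⟩ | ⟨j, c1, c2, c3⟩ | ⟨j, c0, c1, c2, c3⟩
        <;> rw [a2, c2, Prod.mk.injEq] at hrs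
      · omega
      · exact absurd (w_inj hrs.2) (by norm_num)
      · exact absurd (w_inj hrs.2) (by norm_num)
      · exact absurd hrs.1.symm (h.q_ne j)
      · exact absurd hrs.1.symm (h.q_ne j)
    · rcases h.desc s hs with ⟨c1, c2⟩ | ⟨c1, c2⟩ | ⟨c1, c2⟩ | ⟨j, c1, c2, c3⟩ | ⟨j, c0, c1, c2, c3⟩
        <;> rw [a2, c2, Prod.mk.injEq] at hrs
      · exact absurd (w_inj hrs.2) (by norm_num)
      · omega
      · exact absurd (w_inj hrs.2) (by norm_num)
      · exact absurd hrs.1.symm (h.q_ne j)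
      · exact absurd hrs.1.symm (h.q_ne j)
    · rcases h.desc s hs with ⟨c1, c2⟩ | ⟨c1, c2⟩ | ⟨c1, c2⟩ | ⟨j, c1, c2, c3⟩ | ⟨j, c0, c1, c2, c3⟩
        <;> rw [a2, c2, Prod.mk.injEq] at hrs
      · exact absurd (w_inj hrs.2) (by norm_num)
      · exact absurd (w_inj hrs.2) (by norm_num)
      · omega
      · exact absurd hrs.1.symm (h.q_ne j)
      · exact absurd hrs.1.symm (h.q_ne j)
    · rcases h.desc s hs with ⟨c1, c2⟩ | ⟨c1, c2⟩ | ⟨c1, c2⟩ | ⟨j, c1, c2, c3⟩ | ⟨j, c0, c1, c2, c3⟩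
        <;> rw [a2, c2, Prod.mk.injEq] at hrs
      · exact absurd hrs.1 (h.q_ne i)
      · exact absurd hrs.1 (h.q_ne i)
      · exact absurd hrs.1 (h.q_ne i)
      · have e := h.qinj' hrs.1
        rw [Nat.mod_eq_of_lt a1, Nat.mod_eq_of_lt c1] at e
        omega
      · exact absurd hrs.2.symm (w_ne _)
    · rcases h.desc s hs with ⟨c1, c2⟩ | ⟨c1, c2⟩ | ⟨c1, c2⟩ | ⟨j, c1, c2, c3⟩ | ⟨j, c0, c1, c2, c3⟩
        <;> rw [a2, c2, Prod.mk.injEq] at hrs
      · exact absurd hrs.1 (h.q_ne i)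
      · exact absurd hrs.1 (h.q_ne i)
      · exact absurd hrs.1 (h.q_ne i)
      · exact absurd hrs.2 (w_ne _)
      · have e1 := h.qinj' hrs.1
        have e2 := w_inj hrs.2
        have := crt hL3 a0 a1 c0 c1 e1 (by omega)
        omega
  · rw [B_a (show 0 < 3 by norm_num), B_a (show 1 < 3 by norm_num), B_a (show 2 < 3 by norm_num)]
    ext1
    · simp
    · exact mul_comm _ _
  · rw [B_a (show 0 < 3 by norm_num), B_a (show 1 < 3 by norm_num), B_a (show 2 < 3 by norm_num)]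
    ext1
    · simp
    · show (1 : K) = w 0 * ((w 1)⁻¹ * w 2)
      have e : (w 1)⁻¹ * w 2 = w 0 := (w_q 1).trans (w_mod (by norm_num))
      rw [e]
      exact (w_sq 0).symm

end Star
end

end Pool.Agent.Q132.RS
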